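import Mathlib

/-!
# Kikuchi matrix, r = 2 : statements of the parts (MP_d47e08_pr, frozen negation S19664)

`G n` is the product of standard Gaussians indexed by all subsets of `Fin n`; `T n l Z` is the top
eigenvalue of the Kikuchi matrix (r = 2) with entries `Z (I Δ J)`.

`S_PAIR` : `∑_{i ≠ j} f i f j = 2 ∑_{|S| = 2} ∏_{i ∈ S} f i`.  Proof: fiberwise over `S = {i, j}`
(`Finset.sum_fiberwise_of_maps_to` from `offDiag` to `powersetCard 2`, each fiber is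
`{(i,j), (j,i)}`).

`S_QV` : `qf Z v = ∑_S co v S * Z S` and `∑_S (co v S)^2 ≤ 4 l^2` for unit `v`.
Proof. For `S = {i, j}`, `i ≠ j`: the pairs `(I, J)` with `I Δ J = S`, `|I| = |J| = l` have exactly
one of `i, j` in `I` and the other one in `J` (`|I| = |J|` excludes `S ⊆ I`). So
`co v S = ∑_{I ∋ i, ∌ j} v I v (I Δ S) + ∑_{I ∋ j, ∌ i} v I v (I Δ S)`, each square is at most
`w i * w j`, `w i = ∑_{I ∋ i} v I ^ 2` (Cauchy-Schwarz), so `(co v S)^2 ≤ 4 ∏_{i ∈ S} w i`; and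
`∑_i w i = l`, and `∑_{|S|=2} ∏_S w ≤ (∑ w)^2` by `S_PAIR` (may be assumed).

`S_GAUGE` : conjugation by the signs `chi x I`: `chi x I * chi x J = chi x (I Δ J)`.

`S_CM` : Cameron-Martin (for example from `Pool.Agent.H988R2.integral_stdGaussian_add` in
`Pool/Agent/H988R2/Gauss.lean` and `map_pi_eq_stdGaussian`).

`S_SM` : second moment. `∑_{|S|=2} chi x S chi y S = ((∑ z)^2 - n)/2 ≤ (∑ z)^2/2` with
`z i = sg (x i) * sg (y i)` (`S_PAIR`), `exp (a^2/2) = ∫ exp (a g) dγ(g)` with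
`a = μ (∑ z)/√n` (`mgf_gaussianReal`), swap the finite sum and the integral,
`∑_x exp (t ∑ z_i) = ∏_i (exp t + exp (-t)) = (2 cosh t)^n ≤ 2^n exp (n t^2/2)` with `t = μ g/√n`
(`Real.cosh_le_exp_half_sq`), `C = ∫ exp (μ^2 g^2/2) dγ(g)` (finite for `μ < 1`).

`S_GR` : growth. For orthogonal unit `u, w`: `T Z + T (-Z) ≥ qf Z ((u+w)/√2) - qf Z ((u-w)/√2)
= 2 B_Z(u,w)`. Take `u = e_I`, `w = N^(-1/2) ∑_{j ∉ I} sgn (Z {i0,j}) e_{I - i0 + j}`, `i0 ∈ I`,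
`N = n - l`: `T Z + T (-Z) ≥ 2 N^(-1/2) ∑_{j ∉ I} |Z {i0,j}|`. Integrate, `G n` is symmetric under
`Z → -Z`. (May assume that `T n l` is integrable, and `qf Z v ≤ T n l Z` for unit `v`.)
-/

set_option autoImplicit false
open MeasureTheory ProbabilityTheory
open scoped BigOperators

namespace Pool.Agent.X139.KT

noncomputable abbrev G (n : ℕ) : Measure (Finset (Fin n) → ℝ) :=
  Measure.pi fun _ : Finset (Fin n) => gaussianReal 0 1

abbrev V (n l : ℕ) : Type := {K : Finset (Fin n) // K.card = l}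

noncomputable def qf {n l : ℕ} (Z : Finset (Fin n) → ℝ) (v : V n l → ℝ) : ℝ :=
  ∑ I : V n l, ∑ J : V n l,
    if (symmDiff I.1 J.1).card = 2 then Z (symmDiff I.1 J.1) * (v I * v J) else 0

noncomputable def co {n l : ℕ} (v : V n l → ℝ) (S : Finset (Fin n)) : ℝ :=
  ∑ I : V n l, ∑ J : V n l,
    if (symmDiff I.1 J.1).card = 2 ∧ symmDiff I.1 J.1 = S then v I * v J else 0

noncomputable def T (n l : ℕ) (Z : Finset (Fin n) → ℝ) : ℝ :=
  sSup {t : ℝ | ∃ v : V n l → ℝ, ∑ I, v I ^ 2 = 1 ∧ t = qf Z v}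

def sg (b : Bool) : ℝ := if b then 1 else -1

def chi {n : ℕ} (x : Fin n → Bool) (S : Finset (Fin n)) : ℝ := ∏ i ∈ S, sg (x i)

def S_PAIR : Prop := ∀ (n : ℕ) (f : Fin n → ℝ),
  (∑ i, f i) ^ 2 = (∑ i, f i ^ 2) +
    2 * ∑ S ∈ (Finset.univ : Finset (Finset (Fin n))).filter (fun S => S.card = 2), ∏ i ∈ S, f i

def S_QV : Prop := ∀ (n l : ℕ) (v : V n l → ℝ), ∑ I, v I ^ 2 = 1 →
  (∑ S, co v S ^ 2) ≤ 4 * (l : ℝ) ^ 2

def S_GAUGE : Prop := ∀ (n l : ℕ) (x : Fin n → Bool) (Z : Finset (Fin n) → ℝ),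
  T n l (fun S => chi x S * Z S) = T n l Z

def S_CM : Prop := ∀ (n : ℕ) (f : (Finset (Fin n) → ℝ) → ℝ) (a : Finset (Fin n) → ℝ),
  ∫ Z, f (fun S => a S + Z S) ∂(G n) =
    ∫ Z, f Z * Real.exp ((∑ S, a S * Z S) - (∑ S, a S ^ 2) / 2) ∂(G n)

def S_SM : Prop := ∀ μ : ℝ, 0 < μ → μ < 1 → ∃ C : ℝ, 0 < C ∧ ∀ n : ℕ, 0 < n →
  ∀ y : Fin n → Bool, ∑ x : Fin n → Bool, Real.exp (μ ^ 2 / n *
    ∑ S ∈ (Finset.univ : Finset (Finset (Fin n))).filter (fun S => S.card = 2),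
      chi x S * chi y S) ≤ C * 2 ^ n

/-- may assume integrability of `T n l` and the bound `qf Z v ≤ T n l Z` -/
def S_GR : Prop := ∀ (n l : ℕ), 0 < l → l < n → Integrable (T n l) (G n) →
  (∀ (Z : Finset (Fin n) → ℝ) (v : V n l → ℝ), ∑ I, v I ^ 2 = 1 → qf Z v ≤ T n l Z) →
  Real.sqrt ((n : ℝ) - l) * (∫ z, |z| ∂(gaussianReal 0 1)) ≤ ∫ Z, T n l Z ∂(G n)

end Pool.Agent.X139.KT
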