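import Pool.Agent.X139.KT.LR
import Pool.Agent.X200.KT.QV
import Pool.Agent.X28.KT.CM
import Pool.Agent.X28.KT.SM
import Pool.Agent.H329.KT.GR

/-! # The ratio tends to one for r = 2 and mu < 1 -/

set_option autoImplicit false

open MeasureTheory ProbabilityTheory Filter Topology
open scoped BigOperators symmDiff

namespace Pool.Agent.X139.KT

theorem abs_gauss_pos : 0 < ∫ z, |z| ∂(gaussianReal 0 1) := by
  have hi : Integrable (fun z : ℝ => |z|) (gaussianReal 0 1) := by
    have h : MemLp id 1 (gaussianReal 0 1) := by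
      have := memLp_id_gaussianReal (μ := 0) (v := 1) 1
      simpa using this
    have := (memLp_one_iff_integrable.1 h).abs
    simpa using this
  rw [integral_pos_iff_support_of_nonneg (fun z => abs_nonneg z) hi]
  have e : Function.support (fun z : ℝ => |z|) = {0}ᶜ := by
    ext z; simp
  rw [e]
  haveI : NullSingletonClass (gaussianReal 0 1) := nullSingletonClass_gaussianReal (by simp)
  rw [prob_compl_eq_one_sub (measurableSet_singleton 0), measure_singleton]
  simp

/-- For `r = 2`, `0 < μ < 1`, fixed `l ≥ 1`: the expected top eigenvalue with the spike exceeds the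
one without the spike by at most a constant, and the latter tends to infinity. -/
theorem ratio_bound (μ : ℝ) (h0 : 0 < μ) (h1 : μ < 1) (l : ℕ) (hl : 0 < l) (ε : ℝ) (hε : 0 < ε) :
    ∀ᶠ n : ℕ in atTop, (∫ Z, T n l (fun S => μ * (n : ℝ) ^ (-(2 : ℝ) / 4) + Z S) ∂(G n)) /
      (∫ Z, T n l Z ∂(G n)) < 1 + ε := by
  obtain ⟨C, hC, hSM⟩ := Pool.Agent.X28.KT.t_SM Pool.Agent.X200.KT.t_PAIR μ h0 h1
  set m1 := ∫ z, |z| ∂(gaussianReal 0 1) with hm1
  have hm : 0 < m1 := abs_gauss_pos
  set K : ℝ := 8 * (4 * (l : ℝ) ^ 2) + C with hK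
  have hlim : Tendsto (fun n : ℕ => Real.sqrt ((n : ℝ) - l) * m1) atTop atTop := by
    refine Tendsto.atTop_mul_const hm ?_
    refine Real.tendsto_sqrt_atTop.comp ?_
    exact tendsto_atTop_add_const_right _ _ tendsto_natCast_atTop_atTop
  filter_upwards [hlim.eventually_gt_atTop (K / ε), eventually_gt_atTop l, eventually_gt_atTop 0]
    with n hn hnl hn0
  have hS := T_sub (n := n) (l := l) Pool.Agent.X200.KT.t_QV hnl.le
  have hTi : Integrable (T n l) (G n) := hS.memLp.integrable one_le_two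
  have hgr := Pool.Agent.H329.KT.t_GR n l hl hnl hTi (fun Z v hv => le_T Z v hv)
  have hK0 : 0 < K := by positivity
  have hlam : (μ * (n : ℝ) ^ (-(2 : ℝ) / 4)) ^ 2 = μ ^ 2 / n := by
    have hn' : (0 : ℝ) < n := by exact_mod_cast hn0
    have e5 : ((n : ℝ) ^ (-(2 : ℝ) / 4)) ^ 2 = (n : ℝ)⁻¹ := by
      rw [← Real.rpow_natCast ((n : ℝ) ^ (-(2 : ℝ) / 4)), ← Real.rpow_mul hn'.le]
      have : (-(2:ℝ) / 4) * ((2 : ℕ) : ℝ) = -1 := by norm_num
      rw [this, Real.rpow_neg_one]
    rw [mul_pow, e5]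
    rfl
  have hb := main_bound (n := n) (l := l) Pool.Agent.X28.KT.t_CM Pool.Agent.X200.KT.t_QV hnl.le
    (μ * (n : ℝ) ^ (-(2 : ℝ) / 4)) C (by
      intro y
      rw [hlam]
      exact hSM n hn0 y)
  rw [← hK] at hb
  have hpos : K / ε < ∫ Z, T n l Z ∂(G n) := lt_of_lt_of_le hn hgr
  have hpos' : 0 < ∫ Z, T n l Z ∂(G n) := lt_trans (by positivity) hpos
  rw [div_lt_iff₀ hpos']
  rw [div_lt_iff₀ hε] at hpos
  nlinarith

end Pool.Agent.X139.KT
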