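import Pool.Agent.X139.KT.Gss

/-! # Basic facts on the top eigenvalue -/

set_option autoImplicit false

open MeasureTheory ProbabilityTheory Filter Topology
open scoped BigOperators symmDiff

namespace Pool.Agent.X139.KT

variable {n l : ℕ}

theorem qf_eq (Z : Finset (Fin n) → ℝ) (v : V n l → ℝ) : qf Z v = ∑ S, co v S * Z S := by
  unfold qf co
  have e1 : ∀ S : Finset (Fin n), (∑ I : V n l, ∑ J : V n l,
      if (symmDiff I.1 J.1).card = 2 ∧ symmDiff I.1 J.1 = S then v I * v J else 0) * Z S =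
      ∑ I : V n l, ∑ J : V n l,
      (if (symmDiff I.1 J.1).card = 2 ∧ symmDiff I.1 J.1 = S then v I * v J else 0) * Z S := by
    intro S
    rw [Finset.sum_mul]
    exact Finset.sum_congr rfl fun I _ => by rw [Finset.sum_mul]
  symm
  rw [Finset.sum_congr rfl fun S _ => e1 S, Finset.sum_comm]
  refine Finset.sum_congr rfl fun I _ => ?_
  rw [Finset.sum_comm]
  refine Finset.sum_congr rfl fun J _ => ?_
  rw [Finset.sum_eq_single (symmDiff I.1 J.1)]
  · by_cases h : (symmDiff I.1 J.1).card = 2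
    · rw [if_pos h, if_pos ⟨h, rfl⟩]; ring
    · rw [if_neg h, if_neg (fun h' => h h'.1)]; ring
  · intro S _ hS
    rw [if_neg (fun h' => hS h'.2.symm), zero_mul]
  · intro h; exact absurd (Finset.mem_univ _) h

theorem cont_qf (Z : Finset (Fin n) → ℝ) : Continuous fun v : V n l → ℝ => qf Z v := by
  unfold qf
  refine continuous_finsetSum _ fun I _ => continuous_finsetSum _ fun J _ => ?_
  split_ifs
  · fun_prop
  · exact continuous_const

theorem compact_sph : IsCompact {v : V n l → ℝ | ∑ I, v I ^ 2 = 1} := by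
  refine (isCompact_closedBall (0 : V n l → ℝ) 1).of_isClosed_subset ?_ ?_
  · exact isClosed_eq (by fun_prop) continuous_const
  · intro v hv
    rw [mem_closedBall_zero_iff, pi_norm_le_iff_of_nonneg zero_le_one]
    intro I
    rw [Real.norm_eq_abs, ← sq_le_one_iff_abs_le_one]
    have hv' : ∑ I, v I ^ 2 = 1 := hv
    rw [← hv']
    exact Finset.single_le_sum (f := fun I => v I ^ 2) (fun _ _ => sq_nonneg _) (Finset.mem_univ I)

theorem exV (h : l ≤ n) : Nonempty (V n l) := by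
  obtain ⟨K, hK⟩ := Finset.exists_subset_card_eq (s := (Finset.univ : Finset (Fin n))) (n := l)
    (by simpa using h)
  exact ⟨⟨K, hK.2⟩⟩

theorem exists_max (h : l ≤ n) (Z : Finset (Fin n) → ℝ) :
    ∃ v : V n l → ℝ, ∑ I, v I ^ 2 = 1 ∧ T n l Z = qf Z v ∧
      ∀ w : V n l → ℝ, ∑ I, w I ^ 2 = 1 → qf Z w ≤ qf Z v := by
  obtain ⟨I0⟩ := exV h
  obtain ⟨v, hv, hm⟩ := (compact_sph (n := n) (l := l)).exists_isMaxOn
    ⟨Pi.single I0 1, by
      change ∑ I, (Pi.single I0 (1:ℝ) : V n l → ℝ) I ^ 2 = 1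
      rw [Finset.sum_eq_single I0]
      · simp
      · intro b _ hb; simp [hb]
      · simp⟩ (cont_qf Z).continuousOn
  have hm' : ∀ w : V n l → ℝ, ∑ I, w I ^ 2 = 1 → qf Z w ≤ qf Z v := fun w hw => hm hw
  refine ⟨v, hv, ?_, hm'⟩
  apply IsGreatest.csSup_eq
  refine ⟨⟨v, hv, rfl⟩, ?_⟩
  rintro t ⟨w, hw, rfl⟩
  exact hm' w hw

theorem le_T (Z : Finset (Fin n) → ℝ) (v : V n l → ℝ) (hv : ∑ I, v I ^ 2 = 1) :
    qf Z v ≤ T n l Z := by
  rcases le_or_gt l n with h | h
  · obtain ⟨w, -, h2, h3⟩ := exists_max h Z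
    rw [h2]; exact h3 v hv
  · exfalso
    have : IsEmpty (V n l) := ⟨fun K => by
      have h1 := K.2
      have h2 := Finset.card_le_univ K.1
      simp at h2
      omega⟩
    simp at hv

theorem abs_co (v : V n l → ℝ) (hv : ∑ I, v I ^ 2 = 1) (S : Finset (Fin n)) :
    |co v S| ≤ (Fintype.card (V n l) : ℝ) ^ 2 := by
  have h1 : ∀ I, |v I| ≤ 1 := by
    intro I
    rw [← sq_le_one_iff_abs_le_one, ← hv]
    exact Finset.single_le_sum (f := fun I => v I ^ 2) (fun _ _ => sq_nonneg _) (Finset.mem_univ I)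
  unfold co
  refine (Finset.abs_sum_le_sum_abs _ _).trans ?_
  calc _ ≤ ∑ I : V n l, ∑ J : V n l, (1:ℝ) := by
        refine Finset.sum_le_sum fun I _ => (Finset.abs_sum_le_sum_abs _ _).trans
          (Finset.sum_le_sum fun J _ => ?_)
        split_ifs
        · rw [abs_mul]
          exact mul_le_one₀ (h1 I) (abs_nonneg _) (h1 J)
        · simp
    _ = _ := by simp [sq]

theorem T_sub (hQ : S_QV) (h : l ≤ n) :
    Sub (T n l) (∑ S : Finset (Fin n), (Fintype.card (V n l) : ℝ) ^ 2) (4 * (l : ℝ) ^ 2) where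
  zero := by
    obtain ⟨v, -, h2, -⟩ := exists_max h (0 : Finset (Fin n) → ℝ)
    rw [h2, qf_eq]; simp
  sub := by
    intro x
    obtain ⟨v, h1, h2, -⟩ := exists_max h x
    refine ⟨co v, Finset.sum_le_sum fun S _ => abs_co v h1 S, hQ n l v h1, fun y => ?_⟩
    have h3 := le_T y v h1
    rw [qf_eq] at h3
    rw [h2, qf_eq, ← Finset.sum_add_distrib]
    refine le_trans (le_of_eq ?_) h3
    refine Finset.sum_congr rfl fun S _ => by ring

theorem sg_sq (b : Bool) : sg b * sg b = 1 := by cases b <;> simp [sg]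

theorem chi_mul (x : Fin n → Bool) (I J : Finset (Fin n)) :
    chi x I * chi x J = chi x (symmDiff I J) := by
  unfold chi
  have e : ∀ S : Finset (Fin n), ∏ i ∈ S, sg (x i) = ∏ i, if i ∈ S then sg (x i) else 1 := by
    intro S
    rw [Finset.prod_ite_mem, Finset.univ_inter]
  rw [e, e, e, ← Finset.prod_mul_distrib]
  refine Finset.prod_congr rfl fun i _ => ?_
  by_cases h1 : i ∈ I <;> by_cases h2 : i ∈ J <;> simp [h1, h2, Finset.mem_symmDiff, sg_sq]

theorem chi_sq (x : Fin n → Bool) (I : Finset (Fin n)) : chi x I * chi x I = 1 := by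
  rw [chi_mul]; simp [chi]

theorem qf_chi (x : Fin n → Bool) (Z : Finset (Fin n) → ℝ) (v : V n l → ℝ) :
    qf (fun S => chi x S * Z S) v = qf Z (fun I => chi x I.1 * v I) := by
  unfold qf
  refine Finset.sum_congr rfl fun I _ => Finset.sum_congr rfl fun J _ => ?_
  split_ifs
  · change chi x (symmDiff I.1 J.1) * Z (symmDiff I.1 J.1) * (v I * v J) =
      Z (symmDiff I.1 J.1) * ((chi x I.1 * v I) * (chi x J.1 * v J))
    rw [← chi_mul]; ring
  · rfl

theorem t_GAUGE : S_GAUGE := by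
  intro n l x Z
  unfold T
  congr 1
  ext t
  constructor
  · rintro ⟨v, h1, rfl⟩
    refine ⟨fun I => chi x I.1 * v I, ?_, qf_chi x Z v⟩
    rw [← h1]
    refine Finset.sum_congr rfl fun I _ => ?_
    rw [mul_pow, sq (chi x I.1), chi_sq, one_mul]
  · rintro ⟨v, h1, rfl⟩
    refine ⟨fun I => chi x I.1 * v I, ?_, ?_⟩
    · rw [← h1]
      refine Finset.sum_congr rfl fun I _ => ?_
      rw [mul_pow, sq (chi x I.1), chi_sq, one_mul]
    · rw [qf_chi]
      congr 1
      funext I
      rw [← mul_assoc, chi_sq, one_mul]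

end Pool.Agent.X139.KT
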