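import Pool.Agent.W854.DY.Rot
import Pool.Agent.X139.KT.Stm

/-! # The product Gaussian measure: rotations, linear forms, variance bound for sup of linear forms
(the lemmas on the array are adapted from `Pool/Agent/W854/DY/GOE.lean`) -/

set_option autoImplicit false

open MeasureTheory ProbabilityTheory Filter Topology
open scoped ENNReal NNReal

namespace Pool.Agent.X139.KT

noncomputable abbrev GG (ι : Type) [Fintype ι] : Measure (ι → ℝ) :=
  Measure.pi fun _ : ι => gaussianReal 0 1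

variable {ι : Type} [Fintype ι]

theorem GG_eq : GG ι =
    (stdGaussian (EuclideanSpace ℝ ι)).map
      (PiLp.continuousLinearEquiv 2 ℝ (fun _ : ι => ℝ)) := by
  rw [← map_pi_eq_stdGaussian, Measure.map_map]
  · have : (PiLp.continuousLinearEquiv 2 ℝ (fun _ : ι => ℝ)) ∘
        (WithLp.toLp 2 : (ι → ℝ) → EuclideanSpace ℝ ι) = id := by
      funext x; rfl
    rw [this, Measure.map_id]
  · exact (PiLp.continuousLinearEquiv 2 ℝ (fun _ : ι => ℝ)).continuous.measurable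
  · fun_prop

instance GG_isGaussian : IsGaussian (GG ι) := by
  rw [GG_eq]
  infer_instance

theorem GG_mean : ∫ x, id x ∂(GG ι) = 0 := by
  rw [GG_eq, integral_map]
  · simp only [id]
    rw [ContinuousLinearEquiv.integral_comp_comm, integral_id_stdGaussian, map_zero]
  · exact (PiLp.continuousLinearEquiv 2 ℝ
      (fun _ : ι => ℝ)).continuous.measurable.aemeasurable
  · exact aestronglyMeasurable_id

theorem GG_rot (θ : ℝ) : ((GG ι).prod (GG ι)).map
    (ContinuousLinearMap.rotation θ) = (GG ι).prod (GG ι) :=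
  IsGaussian.map_rotation_eq_self (GG_mean) θ

theorem GG_neg : (GG ι).map (fun x => -x) = GG ι := by
  have h1 := GG_rot (ι := ι) Real.pi
  have h2 : (((GG ι).prod (GG ι)).map
    (ContinuousLinearMap.rotation Real.pi)).map Prod.fst = GG ι := by
    rw [h1, Measure.map_fst_prod]; simp
  rw [Measure.map_map measurable_fst
    (ContinuousLinearMap.rotation Real.pi).continuous.measurable] at h2
  have h3 : Prod.fst ∘ (ContinuousLinearMap.rotation Real.pi :
      (ι → ℝ) × (ι → ℝ) →L[ℝ] _) = (fun x => -x) ∘ Prod.fst := by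
    funext z
    simp [ContinuousLinearMap.rotation_apply]
  rw [h3, ← Measure.map_map measurable_neg measurable_fst, Measure.map_fst_prod] at h2
  simpa using h2

theorem GG_sq : ∫⁻ x, ENNReal.ofReal (‖x‖ ^ 2) ∂(GG ι) =
    ENNReal.ofReal (∫ x, ‖x‖ ^ 2 ∂(GG ι)) := by
  have h : MemLp id 2 (GG ι) := IsGaussian.memLp_two_id
  have h2 : Integrable (fun x : ι → ℝ => ‖x‖ ^ 2) (GG ι) := by
    have := h.integrable_norm_pow (by norm_num)
    simpa using this
  rw [ofReal_integral_eq_lintegral_ofReal h2 (Eventually.of_forall fun x => by positivity)]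

theorem GG_lin (c : ι → ℝ) :
    ∫⁻ y, ENNReal.ofReal ((∑ i, c i * y i) ^ 2) ∂(GG ι) = ENNReal.ofReal (∑ i, c i ^ 2) := by
  have hml : MemLp (fun y : ι → ℝ => ∑ i, c i * y i) 2 (GG ι) := by
    have h : ∀ i, MemLp (fun y : ι → ℝ => c i * y i) 2 (GG ι) := by
      intro i
      have h1 : MemLp (fun y : ι → ℝ => y i) 2 (GG ι) := by
        have := IsGaussian.memLp_dual (GG ι)
          (ContinuousLinearMap.proj (R := ℝ) (φ := fun _ : ι => ℝ) i) 2 (by norm_num)
        exact this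
      exact h1.const_mul _
    have := memLp_finsetSum Finset.univ (fun i _ => h i)
    simpa using this
  have hm : ∫ y, (∑ i, c i * y i) ∂(GG ι) = 0 := by
    have := IsGaussian.integral_dual (μ := GG ι) (∑ i, c i • ContinuousLinearMap.proj (R := ℝ)
      (φ := fun _ : ι => ℝ) i)
    have h0 : ∫ x, x ∂(GG ι) = 0 := GG_mean
    rw [h0, map_zero] at this
    simpa using this
  have hv : Var[fun y : ι → ℝ => ∑ i, c i * y i; GG ι] = ∑ i, c i ^ 2 := by
    have h1 := variance_sum_pi (μ := fun _ : ι => gaussianReal 0 1)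
      (X := fun i x => c i * x) (fun i => IsGaussian.memLp_two_id.const_mul _)
    have e : (∑ i, fun x : ι → ℝ => c i * x i) =
        fun y : ι → ℝ => ∑ i, c i * y i := by
      funext x; simp
    rw [e] at h1
    rw [h1]
    refine Finset.sum_congr rfl fun i _ => ?_
    change Var[fun x ↦ c i * (id x); gaussianReal 0 1] = _
    rw [variance_const_mul, variance_id_gaussianReal]
    simp
  have h3 : ∫ y, (∑ i, c i * y i) ^ 2 ∂(GG ι) = ∑ i, c i ^ 2 := by
    rw [← hv, variance_of_integral_eq_zero hml.aestronglyMeasurable.aemeasurable hm]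
  rw [← h3, ofReal_integral_eq_lintegral_ofReal hml.integrable_sq
    (Eventually.of_forall fun x => sq_nonneg _)]

/-- a function with linear subgradients -/
structure Sub (Φ : (ι → ℝ) → ℝ) (C V : ℝ) : Prop where
  zero : Φ 0 = 0
  sub : ∀ x : ι → ℝ, ∃ c : ι → ℝ, (∑ i, |c i| ≤ C) ∧ (∑ i, c i ^ 2 ≤ V) ∧
    ∀ y, Φ x + ∑ i, c i * (y i - x i) ≤ Φ y

theorem Sub.one {Φ : (ι → ℝ) → ℝ} {C V : ℝ} (h : Sub Φ C V) (x y : ι → ℝ) :
    Φ x - Φ y ≤ C * ‖x - y‖ := by
  obtain ⟨c, h1, -, h3⟩ := h.sub x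
  have h4 := h3 y
  have h5 : ∑ i, c i * (y i - x i) ≥ - (C * ‖x - y‖) := by
    have h6 : |∑ i, c i * (y i - x i)| ≤ C * ‖x - y‖ := by
      calc |∑ i, c i * (y i - x i)| ≤ ∑ i, |c i * (y i - x i)| := Finset.abs_sum_le_sum_abs _ _
        _ ≤ ∑ i, |c i| * ‖x - y‖ := by
            refine Finset.sum_le_sum fun i _ => ?_
            rw [abs_mul]
            refine mul_le_mul_of_nonneg_left ?_ (abs_nonneg _)
            have := norm_le_pi_norm (x - y) i
            rw [Pi.sub_apply, Real.norm_eq_abs, abs_sub_comm] at this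
            exact this
        _ = (∑ i, |c i|) * ‖x - y‖ := by rw [Finset.sum_mul]
        _ ≤ C * ‖x - y‖ := by gcongr
    exact (abs_le.1 h6).1
  linarith

theorem Sub.C0 {Φ : (ι → ℝ) → ℝ} {C V : ℝ} (h : Sub Φ C V) : 0 ≤ C := by
  obtain ⟨c, h1, -, h3⟩ := h.sub 0
  exact (Finset.sum_nonneg fun i _ => abs_nonneg _).trans h1

theorem Sub.V0 {Φ : (ι → ℝ) → ℝ} {C V : ℝ} (h : Sub Φ C V) : 0 ≤ V := by
  obtain ⟨c, -, h1, h3⟩ := h.sub 0
  exact (Finset.sum_nonneg fun i _ => sq_nonneg _).trans h1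

theorem Sub.lip {Φ : (ι → ℝ) → ℝ} {C V : ℝ} (h : Sub Φ C V) :
    LipschitzWith (Real.toNNReal C) Φ := by
  refine LipschitzWith.of_dist_le_mul fun x y => ?_
  rw [Real.dist_eq, dist_eq_norm, Real.coe_toNNReal _ h.C0, abs_le]
  refine ⟨?_, h.one x y⟩
  have := h.one y x
  rw [norm_sub_rev] at this
  linarith

theorem Sub.memLp {Φ : (ι → ℝ) → ℝ} {C V : ℝ} (h : Sub Φ C V) : MemLp Φ 2 (GG ι) := by
  have h1 : MemLp (fun x : ι → ℝ => C * ‖x‖) 2 (GG ι) := by
    have h : MemLp id 2 (GG ι) := IsGaussian.memLp_two_id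
    exact h.norm.const_mul C
  refine MemLp.mono' h1 h.lip.continuous.aestronglyMeasurable (Eventually.of_forall fun x => ?_)
  have h2 := h.one x 0
  have h3 := h.one 0 x
  rw [h.zero, sub_zero, sub_zero] at h2
  rw [h.zero, zero_sub, zero_sub, norm_neg] at h3
  rw [Real.norm_eq_abs, abs_le]
  constructor <;> linarith

theorem Sub.var {Φ : (ι → ℝ) → ℝ} {C V : ℝ} (h : Sub Φ C V) :
    ∫ x, (Φ x - ∫ y, Φ y ∂(GG ι)) ^ 2 ∂(GG ι) ≤ 8 * V := by
  have hm := h.memLp
  have hc := h.lip.continuous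
  have h1 := Pool.Agent.W854.DY.G2_le (GG ι) hc.measurable C (√V)
    (∫ x, ‖x‖ ^ 2 ∂(GG ι)) (GG_rot) (GG_neg)
    (GG_sq).le (integral_nonneg fun x => by positivity) (by
      intro x
      obtain ⟨c, h1, h2, h3⟩ := h.sub x
      refine ⟨∑ i, c i • ContinuousLinearMap.proj (R := ℝ) (φ := fun _ : ι => ℝ) i, ?_, ?_, ?_⟩
      · refine ContinuousLinearMap.opNorm_le_bound _ h.C0 fun y => ?_
        have e : (∑ i, c i • ContinuousLinearMap.proj (R := ℝ) (φ := fun _ : ι => ℝ) i) y =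
            ∑ i, c i * y i := by simp
        rw [e, Real.norm_eq_abs]
        calc |∑ i, c i * y i| ≤ ∑ i, |c i * y i| := Finset.abs_sum_le_sum_abs _ _
          _ ≤ ∑ i, |c i| * ‖y‖ := by
              refine Finset.sum_le_sum fun i _ => ?_
              rw [abs_mul]
              exact mul_le_mul_of_nonneg_left (norm_le_pi_norm y i) (abs_nonneg _)
          _ = (∑ i, |c i|) * ‖y‖ := by rw [Finset.sum_mul]
          _ ≤ C * ‖y‖ := by gcongr
      · have e : ∀ y : ι → ℝ, (∑ i, c i • ContinuousLinearMap.proj (R := ℝ)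
            (φ := fun _ : ι => ℝ) i) y = ∑ i, c i * y i := by intro y; simp
        simp only [e]
        rw [GG_lin, Real.sq_sqrt h.V0]
        exact ENNReal.ofReal_le_ofReal h2
      · intro y
        have e : (∑ i, c i • ContinuousLinearMap.proj (R := ℝ) (φ := fun _ : ι => ℝ) i) (y - x) =
            ∑ i, c i * (y i - x i) := by simp
        rw [e]
        exact h3 y) (Real.pi / 2)
  unfold Pool.Agent.W854.DY.G2 Pool.Agent.W854.DY.dinc at h1
  simp only [Real.cos_pi_div_two, Real.sin_pi_div_two, zero_smul, zero_add, one_smul] at h1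
  rw [Real.sq_sqrt h.V0] at h1
  -- real version
  set m := ∫ y, Φ y ∂(GG ι) with hmdef
  have hi1 : Integrable Φ (GG ι) := hm.integrable one_le_two
  have hi2 : Integrable (fun x => Φ x ^ 2) (GG ι) := hm.integrable_sq
  have hA : ∫ z, (Φ z.2 - Φ z.1) ^ 2 ∂((GG ι).prod (GG ι)) =
      2 * ∫ x, (Φ x - m) ^ 2 ∂(GG ι) := by
    have e1 : Integrable (fun z : (ι → ℝ) × (ι → ℝ) => Φ z.1 ^ 2) ((GG ι).prod (GG ι)) :=
      hi2.comp_fst _
    have e2 : Integrable (fun z : (ι → ℝ) × (ι → ℝ) => Φ z.2 ^ 2) ((GG ι).prod (GG ι)) :=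
      hi2.comp_snd _
    have e3 : Integrable (fun z : (ι → ℝ) × (ι → ℝ) => Φ z.1 * Φ z.2) ((GG ι).prod (GG ι)) :=
      hi1.mul_prod hi1
    have e4 : ∀ z : (ι → ℝ) × (ι → ℝ), (Φ z.2 - Φ z.1) ^ 2 =
        Φ z.1 ^ 2 + Φ z.2 ^ 2 - 2 * (Φ z.1 * Φ z.2) := fun z => by ring
    simp_rw [e4]
    have e8 : ∫ z : (ι → ℝ) × (ι → ℝ), (Φ z.1 ^ 2 + Φ z.2 ^ 2 - 2 * (Φ z.1 * Φ z.2))
        ∂((GG ι).prod (GG ι)) = ∫ z : (ι → ℝ) × (ι → ℝ), (Φ z.1 ^ 2 + Φ z.2 ^ 2)
          ∂((GG ι).prod (GG ι)) - ∫ z : (ι → ℝ) × (ι → ℝ), 2 * (Φ z.1 * Φ z.2)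
          ∂((GG ι).prod (GG ι)) := integral_sub (e1.add e2) (e3.const_mul 2)
    rw [e8, integral_add e1 e2, integral_const_mul, integral_prod_mul]
    have e5 : ∫ z : (ι → ℝ) × (ι → ℝ), Φ z.1 ^ 2 ∂((GG ι).prod (GG ι)) = ∫ x, Φ x ^ 2 ∂(GG ι) := by
      rw [integral_fun_fst (f := fun x => Φ x ^ 2)]; simp
    have e6 : ∫ z : (ι → ℝ) × (ι → ℝ), Φ z.2 ^ 2 ∂((GG ι).prod (GG ι)) = ∫ x, Φ x ^ 2 ∂(GG ι) := by
      rw [integral_fun_snd (f := fun x => Φ x ^ 2)]; simp
    rw [e5, e6, ← hmdef]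
    have e7 : ∫ x, (Φ x - m) ^ 2 ∂(GG ι) = ∫ x, Φ x ^ 2 ∂(GG ι) - m ^ 2 := by
      have : ∀ x, (Φ x - m) ^ 2 = Φ x ^ 2 - (2 * m) * Φ x + m ^ 2 := fun x => by ring
      simp_rw [this]
      have f1 : ∫ x, (Φ x ^ 2 - (2 * m) * Φ x + m ^ 2) ∂(GG ι) =
          ∫ x, (Φ x ^ 2 - (2 * m) * Φ x) ∂(GG ι) + ∫ _x, m ^ 2 ∂(GG ι) :=
        integral_add (hi2.sub (hi1.const_mul _)) (integrable_const _)
      have f2 : ∫ x, (Φ x ^ 2 - (2 * m) * Φ x) ∂(GG ι) =
          ∫ x, Φ x ^ 2 ∂(GG ι) - ∫ x, (2 * m) * Φ x ∂(GG ι) :=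
        integral_sub hi2 (hi1.const_mul _)
      rw [f1, f2, integral_const_mul, ← hmdef]
      simp
      ring
    rw [e7]; ring
  have hB : ∫ z, (Φ z.2 - Φ z.1) ^ 2 ∂((GG ι).prod (GG ι)) ≤ 4 * V * (Real.pi / 2) ^ 2 := by
    have hcc : Continuous fun z : (ι → ℝ) × (ι → ℝ) => (Φ z.2 - Φ z.1) ^ 2 :=
      ((hc.comp continuous_snd).sub (hc.comp continuous_fst)).pow 2
    rw [integral_eq_lintegral_of_nonneg_ae (Eventually.of_forall fun z => sq_nonneg _)
      hcc.aestronglyMeasurable]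
    have hV := h.V0
    exact ENNReal.toReal_le_of_le_ofReal (by positivity) h1
  rw [hA] at hB
  have hpi : Real.pi < 4 := by linarith [Real.pi_lt_four]
  have hV := h.V0
  have : 4 * V * (Real.pi / 2) ^ 2 ≤ 16 * V := by
    have h9 : (Real.pi / 2) ^ 2 ≤ 4 := by nlinarith [Real.pi_pos]
    nlinarith
  linarith

end Pool.Agent.X139.KT
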