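import Pool.Agent.X139.KT.Basic

/-! # The likelihood ratio -/

set_option autoImplicit false

open MeasureTheory ProbabilityTheory Filter Topology
open scoped BigOperators symmDiff

namespace Pool.Agent.X139.KT

variable {n l : ℕ}

theorem int_exp_lin (a : Finset (Fin n) → ℝ) :
    Integrable (fun Z : Finset (Fin n) → ℝ => Real.exp (∑ S, a S * Z S)) (G n) ∧
    ∫ Z, Real.exp (∑ S, a S * Z S) ∂(G n) = Real.exp ((∑ S, a S ^ 2) / 2) := by
  have e : ∀ Z : Finset (Fin n) → ℝ, Real.exp (∑ S, a S * Z S) = ∏ S, Real.exp (a S * Z S) :=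
    fun Z => Real.exp_sum _ _
  simp only [e]
  constructor
  · exact Integrable.fintype_prod (f := fun S (z : ℝ) => Real.exp (a S * z))
      fun S => integrable_exp_mul_gaussianReal (a S)
  · rw [integral_fintype_prod_eq_prod (𝕜 := ℝ) (fun S (z : ℝ) => Real.exp (a S * z)),
      Finset.sum_div, Real.exp_sum]
    refine Finset.prod_congr rfl fun S _ => ?_
    have h := mgf_gaussianReal (μ := 0) (v := 1) (p := gaussianReal 0 1) (X := id)
      (by simp) (a S)
    unfold mgf at h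
    simp only [id] at h
    rw [h]
    simp

theorem T_congr (Z Z' : Finset (Fin n) → ℝ) (h : ∀ S, S.card = 2 → Z S = Z' S) :
    T n l Z = T n l Z' := by
  unfold T
  have e : ∀ v : V n l → ℝ, qf Z v = qf Z' v := by
    intro v
    unfold qf
    refine Finset.sum_congr rfl fun I _ => Finset.sum_congr rfl fun J _ => ?_
    split_ifs with h1
    · rw [h _ h1]
    · rfl
  simp only [e]

theorem sg_cases (b : Bool) : sg b = 1 ∨ sg b = -1 := by cases b <;> simp [sg]

theorem chi_cases (x : Fin n → Bool) (S : Finset (Fin n)) : chi x S = 1 ∨ chi x S = -1 := by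
  have := chi_sq x S
  exact mul_self_eq_one_iff.1 this

theorem mp_chi (x : Fin n → Bool) :
    MeasurePreserving (fun (Z : Finset (Fin n) → ℝ) S => chi x S * Z S) (G n) (G n) := by
  refine measurePreserving_pi (fun _ : Finset (Fin n) => gaussianReal 0 1)
    (fun _ : Finset (Fin n) => gaussianReal 0 1) (f := fun S z => chi x S * z) fun S => ?_
  rcases chi_cases x S with h | h
  · simp only [h, one_mul]
    exact MeasurePreserving.id _
  · simp only [h, neg_one_mul]
    refine ⟨measurable_neg, ?_⟩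
    have := gaussianReal_map_neg (μ := 0) (v := 1)
    simpa using this

/-- the spike -/
noncomputable def spk (lam : ℝ) (x : Fin n → Bool) (S : Finset (Fin n)) : ℝ :=
  if S.card = 2 then lam * chi x S else 0

/-- the likelihood of one spike -/
noncomputable def lk (lam : ℝ) (x : Fin n → Bool) (Z : Finset (Fin n) → ℝ) : ℝ :=
  Real.exp ((∑ S, spk lam x S * Z S) - (∑ S, spk lam x S ^ 2) / 2)

theorem E_spike (hCM : S_CM) (hT : Continuous (T n l)) (lam : ℝ) (x : Fin n → Bool) :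
    ∫ Z, T n l (fun S => lam + Z S) ∂(G n) = ∫ Z, T n l Z * lk lam x Z ∂(G n) := by
  have h1 : ∀ Z : Finset (Fin n) → ℝ, T n l (fun S => lam + Z S) =
      (fun Z' => T n l (fun S => chi x S * lam + Z' S)) (fun S => chi x S * Z S) := by
    intro Z
    have := t_GAUGE n l x (fun S => lam + Z S)
    rw [← this]
    change T n l _ = T n l _
    congr 1
    funext S
    ring
  simp_rw [h1]
  have hc2 : Continuous (fun Z' : Finset (Fin n) → ℝ => T n l (fun S => chi x S * lam + Z' S)) :=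
    hT.comp (by fun_prop)
  have h2 : ∫ Z : Finset (Fin n) → ℝ, (fun Z' : Finset (Fin n) → ℝ =>
      T n l (fun S => chi x S * lam + Z' S)) (fun S => chi x S * Z S) ∂(G n) =
      ∫ Z' : Finset (Fin n) → ℝ, T n l (fun S => chi x S * lam + Z' S) ∂(G n) := by
    conv_rhs => rw [← (mp_chi x).map_eq]
    rw [integral_map (mp_chi x).measurable.aemeasurable hc2.aestronglyMeasurable]
  rw [h2]
  have h3 : ∀ Z' : Finset (Fin n) → ℝ, T n l (fun S => chi x S * lam + Z' S) =
      T n l (fun S => spk lam x S + Z' S) := by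
    intro Z'
    refine T_congr _ _ fun S hS => ?_
    simp only [spk, hS, if_true]
    ring
  simp_rw [h3]
  rw [hCM n (T n l) (spk lam x)]
  rfl

/-- the likelihood ratio -/
noncomputable def LRt (n : ℕ) (lam : ℝ) (Z : Finset (Fin n) → ℝ) : ℝ :=
  (2 ^ n : ℝ)⁻¹ * ∑ x : Fin n → Bool, lk lam x Z

theorem cont_lk (lam : ℝ) (x : Fin n → Bool) : Continuous (lk (n := n) lam x) := by
  unfold lk
  fun_prop

theorem lk_mul (lam : ℝ) (x y : Fin n → Bool) (Z : Finset (Fin n) → ℝ) :
    lk lam x Z * lk lam y Z = Real.exp (-((∑ S, spk lam x S ^ 2) / 2) - (∑ S, spk lam y S ^ 2) / 2) *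
      Real.exp (∑ S, (spk lam x S + spk lam y S) * Z S) := by
  unfold lk
  rw [← Real.exp_add, ← Real.exp_add]
  congr 1
  simp only [add_mul, Finset.sum_add_distrib]
  ring

theorem int_lk_mul (lam : ℝ) (x y : Fin n → Bool) :
    Integrable (fun Z => lk lam x Z * lk lam y Z) (G n) ∧
    ∫ Z, lk lam x Z * lk lam y Z ∂(G n) = Real.exp (∑ S, spk lam x S * spk lam y S) := by
  simp only [lk_mul]
  obtain ⟨h1, h2⟩ := int_exp_lin (n := n) (fun S => spk lam x S + spk lam y S)
  refine ⟨h1.const_mul _, ?_⟩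
  rw [integral_const_mul, h2, ← Real.exp_add]
  congr 1
  have : ∀ S, (spk lam x S + spk lam y S) ^ 2 = spk lam x S ^ 2 + spk lam y S ^ 2 +
      2 * (spk lam x S * spk lam y S) := fun S => by ring
  simp only [this, Finset.sum_add_distrib, ← Finset.mul_sum]
  ring

theorem memLp_lk (lam : ℝ) (x : Fin n → Bool) : MemLp (lk (n := n) lam x) 2 (G n) := by
  rw [memLp_two_iff_integrable_sq (cont_lk lam x).aestronglyMeasurable]
  have := (int_lk_mul (n := n) lam x x).1
  refine this.congr (Eventually.of_forall fun Z => ?_)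
  simp only [sq]

theorem int_lk (lam : ℝ) (x : Fin n → Bool) : ∫ Z, lk lam x Z ∂(G n) = 1 := by
  obtain ⟨h1, h2⟩ := int_exp_lin (n := n) (spk lam x)
  have : ∀ Z : Finset (Fin n) → ℝ, lk lam x Z = Real.exp (-((∑ S, spk lam x S ^ 2) / 2)) *
      Real.exp (∑ S, spk lam x S * Z S) := by
    intro Z
    unfold lk
    rw [← Real.exp_add]
    congr 1; ring
  simp_rw [this]
  rw [integral_const_mul, h2, ← Real.exp_add]
  simp

theorem memLp_LR (lam : ℝ) : MemLp (LRt n lam) 2 (G n) := by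
  unfold LRt
  exact (memLp_finsetSum Finset.univ fun x _ => memLp_lk lam x).const_mul _

theorem int_LR (lam : ℝ) : ∫ Z, LRt n lam Z ∂(G n) = 1 := by
  unfold LRt
  rw [integral_const_mul, integral_finsetSum _ fun x _ => (memLp_lk lam x).integrable one_le_two]
  simp only [int_lk]
  simp

theorem spk_mul (lam : ℝ) (x y : Fin n → Bool) :
    ∑ S, spk lam x S * spk lam y S = lam ^ 2 *
      ∑ S ∈ (Finset.univ : Finset (Finset (Fin n))).filter (fun S => S.card = 2),
        chi x S * chi y S := by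
  rw [Finset.mul_sum, Finset.sum_filter]
  refine Finset.sum_congr rfl fun S _ => ?_
  unfold spk
  split_ifs
  · ring
  · ring

theorem int_LR_sq (lam C : ℝ)
    (hC : ∀ y : Fin n → Bool, ∑ x : Fin n → Bool, Real.exp (lam ^ 2 *
      ∑ S ∈ (Finset.univ : Finset (Finset (Fin n))).filter (fun S => S.card = 2),
        chi x S * chi y S) ≤ C * 2 ^ n) :
    ∫ Z, LRt n lam Z ^ 2 ∂(G n) ≤ C := by
  have e : ∀ Z, LRt n lam Z ^ 2 = ((2 ^ n : ℝ)⁻¹) ^ 2 *
      ∑ y : Fin n → Bool, ∑ x : Fin n → Bool, lk lam x Z * lk lam y Z := by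
    intro Z
    unfold LRt
    rw [mul_pow]
    congr 1
    rw [sq, Finset.sum_mul_sum, Finset.sum_comm]
  simp_rw [e]
  rw [integral_const_mul, integral_finsetSum _ fun y _ => integrable_finsetSum _ fun x _ =>
    (int_lk_mul lam x y).1]
  have e2 : ∀ y : Fin n → Bool, ∫ Z, ∑ x : Fin n → Bool, lk lam x Z * lk lam y Z ∂(G n) ≤
      C * 2 ^ n := by
    intro y
    rw [integral_finsetSum _ fun x _ => (int_lk_mul lam x y).1]
    refine le_trans (le_of_eq ?_) (hC y)
    refine Finset.sum_congr rfl fun x _ => ?_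
    rw [(int_lk_mul lam x y).2, spk_mul]
  calc _ ≤ ((2 ^ n : ℝ)⁻¹) ^ 2 * ∑ _y : Fin n → Bool, C * 2 ^ n :=
        mul_le_mul_of_nonneg_left (Finset.sum_le_sum fun y _ => e2 y) (by positivity)
    _ = C := by
        simp
        field_simp

theorem main_bound (hCM : S_CM) (hQ : S_QV) (h : l ≤ n) (lam C : ℝ)
    (hC : ∀ y : Fin n → Bool, ∑ x : Fin n → Bool, Real.exp (lam ^ 2 *
      ∑ S ∈ (Finset.univ : Finset (Finset (Fin n))).filter (fun S => S.card = 2),
        chi x S * chi y S) ≤ C * 2 ^ n) :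
    ∫ Z, T n l (fun S => lam + Z S) ∂(G n) ≤ ∫ Z, T n l Z ∂(G n) +
      (8 * (4 * (l : ℝ) ^ 2) + C) := by
  have hS := T_sub (n := n) (l := l) hQ h
  have hT := hS.lip.continuous
  have hTm : MemLp (T n l) 2 (G n) := hS.memLp
  have hvar : ∫ x, (T n l x - ∫ y, T n l y ∂(G n)) ^ 2 ∂(G n) ≤ 8 * (4 * (l : ℝ) ^ 2) := hS.var
  set m := ∫ y, T n l y ∂(G n) with hm
  have hL := memLp_LR (n := n) lam
  -- averaging
  have h1 : ∫ Z, T n l (fun S => lam + Z S) ∂(G n) = ∫ Z, T n l Z * LRt n lam Z ∂(G n) := by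
    have e : ∀ Z : Finset (Fin n) → ℝ, T n l Z * LRt n lam Z =
        (2 ^ n : ℝ)⁻¹ * ∑ x : Fin n → Bool, T n l Z * lk lam x Z := by
      intro Z
      unfold LRt
      rw [← Finset.mul_sum]; ring
    simp_rw [e]
    have hii : ∀ x : Fin n → Bool, Integrable (fun Z => T n l Z * lk lam x Z) (G n) :=
      fun x => hTm.integrable_mul (memLp_lk lam x)
    rw [integral_const_mul, integral_finsetSum _ fun x _ => hii x]
    rw [Finset.sum_congr rfl fun x _ => (E_spike (l := l) hCM hT lam x).symm]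
    simp
  have hi1 : Integrable (fun Z => T n l Z * LRt n lam Z) (G n) := hTm.integrable_mul hL
  have hi2 : Integrable (LRt n lam) (G n) := hL.integrable one_le_two
  have hi3 : Integrable (T n l) (G n) := hTm.integrable one_le_two
  have hu : MemLp (fun Z => T n l Z - m) 2 (G n) := hTm.sub (memLp_const m)
  have hw : MemLp (fun Z => LRt n lam Z - 1) 2 (G n) := hL.sub (memLp_const 1)
  have h2 : ∫ Z, (T n l Z - m) * (LRt n lam Z - 1) ∂(G n) =
      ∫ Z, T n l Z * LRt n lam Z ∂(G n) - m := by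
    have e : ∀ Z, (T n l Z - m) * (LRt n lam Z - 1) =
        (T n l Z * LRt n lam Z - T n l Z) - m * (LRt n lam Z - 1) := fun Z => by ring
    simp_rw [e]
    have f1 : ∫ Z, (T n l Z * LRt n lam Z - T n l Z) - m * (LRt n lam Z - 1) ∂(G n) =
        ∫ Z, (T n l Z * LRt n lam Z - T n l Z) ∂(G n) - ∫ Z, m * (LRt n lam Z - 1) ∂(G n) :=
      integral_sub (hi1.sub hi3) ((hi2.sub (integrable_const _)).const_mul _)
    have f2 : ∫ Z, (T n l Z * LRt n lam Z - T n l Z) ∂(G n) =
        ∫ Z, T n l Z * LRt n lam Z ∂(G n) - ∫ Z, T n l Z ∂(G n) := integral_sub hi1 hi3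
    have f3 : ∫ Z, (LRt n lam Z - 1) ∂(G n) = ∫ Z, LRt n lam Z ∂(G n) - ∫ _Z, (1:ℝ) ∂(G n) :=
      integral_sub hi2 (integrable_const _)
    rw [f1, f2, integral_const_mul, f3, int_LR, ← hm]
    simp
  have h3 : ∫ Z, (T n l Z - m) * (LRt n lam Z - 1) ∂(G n) ≤
      ∫ Z, ((T n l Z - m) ^ 2 + (LRt n lam Z - 1) ^ 2) ∂(G n) := by
    refine integral_mono (hu.integrable_mul hw) (hu.integrable_sq.add hw.integrable_sq) fun Z => ?_
    simp only [Pi.mul_apply]
    nlinarith [sq_nonneg (T n l Z - m), sq_nonneg (LRt n lam Z - 1),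
      sq_nonneg ((T n l Z - m) - (LRt n lam Z - 1))]
  have h4 : ∫ Z, ((T n l Z - m) ^ 2 + (LRt n lam Z - 1) ^ 2) ∂(G n) =
      ∫ Z, (T n l Z - m) ^ 2 ∂(G n) + ∫ Z, (LRt n lam Z - 1) ^ 2 ∂(G n) :=
    integral_add hu.integrable_sq hw.integrable_sq
  have h5 : ∫ Z, (LRt n lam Z - 1) ^ 2 ∂(G n) ≤ C := by
    have e : ∀ Z, (LRt n lam Z - 1) ^ 2 = LRt n lam Z ^ 2 - (2 * LRt n lam Z - 1) :=
      fun Z => by ring
    simp_rw [e]
    have f1 : ∫ Z, (LRt n lam Z ^ 2 - (2 * LRt n lam Z - 1)) ∂(G n) =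
        ∫ Z, LRt n lam Z ^ 2 ∂(G n) - ∫ Z, (2 * LRt n lam Z - 1) ∂(G n) :=
      integral_sub hL.integrable_sq ((hi2.const_mul 2).sub (integrable_const _))
    have f2 : ∫ Z, (2 * LRt n lam Z - 1) ∂(G n) =
        ∫ Z, 2 * LRt n lam Z ∂(G n) - ∫ _Z, (1:ℝ) ∂(G n) :=
      integral_sub (hi2.const_mul 2) (integrable_const _)
    rw [f1, f2, integral_const_mul, int_LR]
    have := int_LR_sq (n := n) lam C hC
    simp
    linarith
  linarith

end Pool.Agent.X139.KT
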